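import Pool.Agent.R892.MS.Run
set_option autoImplicit false

/-!
# Deterministic rules which switch several improving directions at once are exponential on abstract cubes

On a cube, and so for linear programs whose feasible region is combinatorially a cube (Klee-Minty
cubes, Markov decision processes with two actions), there is a natural generalisation of the simplex
method: at a vertex one may switch not only one improving direction (one pivot) but any nonempty set
of improving directions at once (block pivots, policy iteration). This always increases the
objective function. Howard's rule, which switches all of them, is an example, and on the abstract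
cubes which fool the simplex rules such rules may be very fast.

We consider injective objective functions `f` on the vertices of the `n`-cube with exactly one local
maximum on every face. A rule sees all the vertices visited so far, with their objective values and
their sets of improving directions, and chooses a nonempty set of improving directions of the current
vertex, which are all switched. It may use all it has seen in any way: no bound on memory or
computation. For each such rule and each start vertex there is an `f` for which the rule makes at least
`2 ^ k` moves, whenever `k (k + 1) (3 k + 28) < n`.

The starting result `AllDeterministicRules` is the case of the rules which switch one direction at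
each move. For Howard's rule an exponential bound was proved by Schurr and Szabó.

Proof. The adversary of `AllDeterministicRules` (`Pool/Agent/TH70/AR/`) is adapted to set-valued
moves: the facet into which the rule has moved in ONE of the switched directions is declared a
hypersink, and in the wiping phase every direction that is offered is useful. That the moves increase
`f` follows from the theorem of Szabó and Welzl that two different vertices differ in a direction
which is improving at exactly one of them (`Pool/Agent/R892/MS/Uso.lean`).
-/

namespace Pool.Agent.Results.MP_4d246d_lc.BlockPivots

open Finset Pool.Agent.TH70.AR Pool.Agent.TH70.AR.MS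

/-- **Every deterministic rule which switches sets of improving directions is exponential.** Let
`k (k + 1) (3 k + 28) < n`. A rule sees the list of triples (visited vertex, its objective value, its
set of improving directions), the current one first, and names a nonempty set of improving directions;
`sw x T` is the vertex `x` with all the directions in `T` switched. -/
theorem result (n k : ℕ) (hn : k * (k + 1) * (3 * k + 28) < n)
    (rule : List ((Fin n → Bool) × ℕ × Finset (Fin n)) → Finset (Fin n))
    (hrule : ∀ (x : Fin n → Bool) (c : ℕ) (S : Finset (Fin n))
      (l : List ((Fin n → Bool) × ℕ × Finset (Fin n))), S.Nonempty →
        (rule ((x, c, S) :: l)).Nonempty ∧ rule ((x, c, S) :: l) ⊆ S)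
    (x₀ : Fin n → Bool) :
    ∃ (f : (Fin n → Bool) → ℕ) (L : ℕ) (w : ℕ → (Fin n → Bool)),
      Function.Injective f ∧
      (∀ (U : Finset (Fin n)) (x : Fin n → Bool), ∃! y : Fin n → Bool,
        (∀ i, i ∉ U → y i = x i) ∧ ∀ i ∈ U, f (TH70.AR.flip y i) < f y) ∧
      (∀ (x : Fin n → Bool) (T : Finset (Fin n)), T.Nonempty → T ⊆ improving f x →
        f x < f (sw x T)) ∧
      (∀ x : Fin n → Bool, ∃ (m : ℕ) (v : ℕ → (Fin n → Bool)), m ≤ n ∧ v 0 = x ∧
        (∀ t < m, ∃ i ∈ improving f (v t), v (t + 1) = TH70.AR.flip (v t) i) ∧
        improving f (v m) = ∅) ∧
      w 0 = x₀ ∧
      (∀ t < L, (improving f (w t)).Nonempty ∧ w (t + 1) = sw (w t) (rule (seen f w t))) ∧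
      improving f (w L) = ∅ ∧ 2 ^ k ≤ L := by
  obtain ⟨f, h1, h2, L, w, h3, h4, h5, h6⟩ := slow hn rule hrule x₀
  exact ⟨f, L, w, h1, h2, fun x T hT hTi => sw_lt h2 T hTi hT, short_path h2, h3, h4, h5, h6⟩

end Pool.Agent.Results.MP_4d246d_lc.BlockPivots
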