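import Pool.Agent.R531.Sx.Final
set_option autoImplicit false

/-!
# Random start vertices do not help pivot rules with little memory

The starting result `AllDeterministicRules` and its successors say that every deterministic pivot rule
is slow on some abstract cube from a *given* start vertex (or from a few of them). Here the start vertex and
the initial contents of the memory are random, with an arbitrary joint distribution, for instance uniform on
all vertices of the cube. A rule has `M` memory states; before each pivot it sees its memory state, the
current vertex, its objective value and its set of improving directions, and names an improving direction and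
a new memory state. For `b ≤ n` and a number `k ≥ 1` with `12000 k ^ 2 (⌊log₂ k⌋ + 1) ^ 3 ≤ b` there is an
objective function with exactly one local maximum on every face of the `n`-cube on which the rule needs at
least `2 ^ k` pivots with probability at least `(1 - b / n) (1 - 2 ^ (-n)) / M`; with a slightly worse `k`,
`2 k (k + 1) (3 k + 28) + (3 k + 18) m ≤ b`, this probability is `m` times as large, so it is close to `1`
for `M = o(n / log n)` and `b = o(n)`. So the expected number of pivots is `2 ^ (n ^ (1/2 - o(1)))` for every rule
with at most `n ^ (1/2 - ε)` bits of memory, whatever the distribution of the start vertex and of these bits is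
(if the memory is not bounded, a random start vertex supplies `n` random bits).

Proof. First the cube is oriented uniformly towards a vertex `v` that is unlikely as a start vertex. This fixes
the way of the rule from every start vertex, also the last direction on this way and the memory state on
arrival at `v`. Averaging gives a set `B` of `b` directions which contains this last direction with
probability at most `b / n`, and `m` memory states which cover the fraction `m / M` of the arrivals. The face
of all vertices which agree with `v` outside `B` is a hypersink; it gets the function on the `b`-cube which is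
slow for the `m` rules with full memory which simulate the given rule from these `m` states (`AllDeterministicRules`
in the form of `SquareRootExponent` for `m = 1`, and `RestartsAndPortfolios`). A run whose last
direction is outside `B` does not meet this face before it arrives at `v`, so it does not notice the change.
-/

namespace Pool.Agent.Results.MP_4d246d_lc.RandomStartSmallMemory

open Finset Pool.Agent.TH70.AR Pool.Agent.R531.Sx

/-- **Pivot rules with few memory states are exponential on abstract objective functions from random start
vertices.** Let `1 ≤ m ≤ M`, `1 ≤ b ≤ n`, and let either `m = 1`, `k ≥ 1`,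
`12000 k ^ 2 (⌊log₂ k⌋ + 1) ^ 3 ≤ b` or `2 k (k + 1) (3 k + 28) + (3 k + 18) m ≤ b`. For every pivot rule `R`
with `M` memory states and every probability distribution `μ` on the pairs (start vertex, initial memory
state) there is an injective objective function `f` on the vertices of the `n`-cube with exactly one local
maximum on every face such that the number `T s` of pivots of the rule from the start `s` is at
least `2 ^ k` with probability at least `(m / M) (1 - b / n) (1 - 2 ^ (-n))`; so its expectation is at least
`2 ^ k` times this. -/
theorem result (n b k m M : ℕ) (hb0 : 1 ≤ b) (hb : b ≤ n) (hm0 : 1 ≤ m) (hm : m ≤ M)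
    (hk : (m = 1 ∧ 1 ≤ k ∧ 12000 * k ^ 2 * (Nat.log 2 k + 1) ^ 3 ≤ b) ∨
      2 * (k * (k + 1) * (3 * k + 28)) + (3 * k + 18) * m ≤ b)
    (R : Fin M → (Fin n → Bool) × ℕ × Finset (Fin n) → Fin n × Fin M)
    (hR : ∀ (q : Fin M) (x : Fin n → Bool) (c : ℕ) (S : Finset (Fin n)), S.Nonempty →
      (R q (x, c, S)).1 ∈ S)
    (μ : (Fin n → Bool) × Fin M → ℝ) (hμ : ∀ s, 0 ≤ μ s) (hμ1 : ∑ s, μ s = 1) :
    ∃ f : (Fin n → Bool) → ℕ, Function.Injective f ∧
      (∀ (U : Finset (Fin n)) (x : Fin n → Bool), ∃! y : Fin n → Bool,
        (∀ i, i ∉ U → y i = x i) ∧ ∀ i ∈ U, f (TH70.AR.flip y i) < f y) ∧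
      ∃ T : (Fin n → Bool) × Fin M → ℕ,
        (∀ s, improving f (mrun R f s (T s)).1 = ∅ ∧
          ∀ t < T s, (improving f (mrun R f s t).1).Nonempty) ∧
        (m : ℝ) / M * (1 - b / n) * (1 - (1 / 2) ^ n) ≤ ∑ s with 2 ^ k ≤ T s, μ s ∧
        2 ^ k * ((m : ℝ) / M * (1 - b / n) * (1 - (1 / 2) ^ n)) ≤ ∑ s, μ s * T s := by
  have hP : Port b k m := by
    rcases hk with ⟨rfl, h1, h2⟩ | h
    · exact port_one h1 h2
    · exact port_many hm0 h
  obtain ⟨f, h1, h2, T, h3, h4⟩ := main hb0 hb hm hP R hR μ hμ hμ1
  refine ⟨f, h1, h2, T, h3, h4, ?_⟩
  calc (2 : ℝ) ^ k * ((m : ℝ) / M * (1 - b / n) * (1 - (1 / 2) ^ n))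
      ≤ 2 ^ k * ∑ s with 2 ^ k ≤ T s, μ s := mul_le_mul_of_nonneg_left h4 (by positivity)
    _ = ∑ s with 2 ^ k ≤ T s, μ s * 2 ^ k := by rw [mul_sum]; simp only [mul_comm]
    _ ≤ ∑ s with 2 ^ k ≤ T s, μ s * T s := by
        refine sum_le_sum fun s hs => mul_le_mul_of_nonneg_left ?_ (hμ s)
        rw [mem_filter] at hs
        exact_mod_cast hs.2
    _ ≤ ∑ s, μ s * T s :=
        sum_le_sum_of_subset_of_nonneg (filter_subset _ _) fun s _ _ =>
          mul_nonneg (hμ s) (Nat.cast_nonneg _)

end Pool.Agent.Results.MP_4d246d_lc.RandomStartSmallMemory
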