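import Pool.Agent.R892.JP.Port
set_option autoImplicit false

/-!
# Restarts, portfolios and few random bits do not make pivot rules polynomial on abstract cubes

The starting result `AllDeterministicRules` says that every deterministic pivot rule, which may use
everything it has seen in any way, is exponential on some abstract cube: for an injective objective
function `f` on the vertices of the `n`-cube with exactly one local maximum on every face. Here the
algorithms may do more.

1. Jumps. At every moment the algorithm sees all the vertices visited so far, with their objective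
   values and their sets of improving directions, and it either makes a step along an improving edge
   or jumps to an arbitrary vertex of the cube (visited before or not). If
   `2 k (k + 1) (3 k + 28) + (3 k + 18) (J + 1) ≤ n`, then for every such algorithm and every start
   vertex there is an `f` such that the maximum is not visited with at most `J` jumps unless there
   are `2 ^ k` consecutive steps without jumps. So with `J` jumps it takes `2 ^ (c k)` steps for
   `k = min (n ^ (1 / 3), n / (J + 1))`: with `o (n / log n)` restarts no algorithm is polynomial.
2. Several rules. For any `J + 1` pivot rules and any `J + 1` start vertices there is one `f` for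
   which each of the rules makes at least `2 ^ k` steps from its start vertex. So also a pivot rule
   that uses `log₂ (J + 1)` random bits is slow with certainty.

Proof. The adversary of `AllDeterministicRules` (`Pool/Agent/TH70/AR/`) is restarted on a new face after
each jump: the records of the walk before the jump (at most `2 ^ (k + 6)` vertices at which all but few
directions are improving) are wiped by freezing only `3 k + 18` coordinates, at values which now need
not be those of the current vertex, so that a direction can be chosen greedily which wipes a quarter of the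
remaining records. The frozen face is a hypersink: the function is fixed outside, and it does not
matter how the algorithm finds its way into the face or when it jumps again; only when it has entered the
face a new walk begins there.
-/

namespace Pool.Agent.Results.MP_4d246d_lc.RestartsAndPortfolios

open Finset Pool.Agent.TH70.AR Pool.Agent.TH70.AR.JP

/-- **Algorithms with few jumps and several pivot rules at once are exponential on abstract cubes.** -/
theorem result (n k J : ℕ) (hn : 2 * (k * (k + 1) * (3 * k + 28)) + (3 * k + 18) * (J + 1) ≤ n) :
    (∀ (A : List ((Fin n → Bool) × ℕ × Finset (Fin n)) → Fin n ⊕ (Fin n → Bool))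
      (x₀ : Fin n → Bool),
      (∀ (x : Fin n → Bool) (c : ℕ) (S : Finset (Fin n))
        (l : List ((Fin n → Bool) × ℕ × Finset (Fin n))) (i : Fin n),
        S.Nonempty → A ((x, c, S) :: l) = Sum.inl i → i ∈ S) →
      ∃ (f : (Fin n → Bool) → ℕ) (w : ℕ → (Fin n → Bool)),
        Function.Injective f ∧
        (∀ (U : Finset (Fin n)) (x : Fin n → Bool), ∃! y : Fin n → Bool,
          (∀ i, i ∉ U → y i = x i) ∧ ∀ i ∈ U, f (TH70.AR.flip y i) < f y) ∧
        w 0 = x₀ ∧ (∀ t, w (t + 1) = next (w t) (A (seen f w t))) ∧
        ∀ T, improving f (w T) = ∅ →
          ((range T).filter fun t => (A (seen f w t)).isRight = true).card ≤ J →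
          ∃ s, s + 2 ^ k ≤ T ∧ ∀ t, s ≤ t → t < s + 2 ^ k → (A (seen f w t)).isLeft = true) ∧
    (∀ (R : Fin (J + 1) → List ((Fin n → Bool) × ℕ × Finset (Fin n)) → Fin n)
      (y : Fin (J + 1) → (Fin n → Bool)),
      (∀ (j : Fin (J + 1)) (x : Fin n → Bool) (c : ℕ) (S : Finset (Fin n))
        (l : List ((Fin n → Bool) × ℕ × Finset (Fin n))), S.Nonempty → R j ((x, c, S) :: l) ∈ S) →
      ∃ f : (Fin n → Bool) → ℕ,
        Function.Injective f ∧
        (∀ (U : Finset (Fin n)) (x : Fin n → Bool), ∃! y : Fin n → Bool,
          (∀ i, i ∉ U → y i = x i) ∧ ∀ i ∈ U, f (TH70.AR.flip y i) < f y) ∧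
        ∀ j : Fin (J + 1), ∃ (L : ℕ) (w : ℕ → (Fin n → Bool)), w 0 = y j ∧
          (∀ t < L, (improving f (w t)).Nonempty ∧
            w (t + 1) = TH70.AR.flip (w t) (R j (seen f w t))) ∧
          improving f (w L) = ∅ ∧ 2 ^ k ≤ L) := by
  have hn' : 2 * (k * (k + 1) * (3 * k + 28)) + 3 * (k + 6) * (J + 1) ≤ n := by
    have h1 : 3 * (k + 6) = 3 * k + 18 := by ring
    rw [h1]
    exact hn
  refine ⟨fun A x₀ hA => ?_, fun R y hR => portfolio hn' R hR y⟩
  obtain ⟨f, h1, h2, h3⟩ := adversary hn' (A := A) hA x₀
  have hact : ∀ t, A (seen f (pos A f x₀) t) = act A f x₀ t := by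
    intro t
    rw [seen_eq]
    rfl
  refine ⟨f, pos A f x₀, h1, h2, rfl, fun t => ?_, fun T hT hJ => ?_⟩
  · rw [hact, pos_succ]
  · simp only [hact] at hJ ⊢
    obtain ⟨s, h4, h5⟩ := h3 T hT hJ
    refine ⟨s, h4, fun t ht1 ht2 => ?_⟩
    have h6 := h5 t ht1 ht2
    cases h7 : act A f x₀ t with
    | inl i => rfl
    | inr y => rw [h7] at h6; simp at h6

end Pool.Agent.Results.MP_4d246d_lc.RestartsAndPortfolios
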