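import Pool.Agent.R617.SR.Run
set_option autoImplicit false

/-!
# On abstract cubes every deterministic pivot rule needs `2 ^ (n ^ (1/2 - o(1)))` steps

`flip x i` is the neighbour of the vertex `x` of the `n`-cube in direction `i`, `improving f x` the set of
directions `i` with `f x < f (flip x i)`, and `seen f w t` the list of triples (visited vertex, its value,
its improving directions) for `w t, …, w 0`. A rule sees this list and chooses an improving direction; there
is no bound on its memory or computation.

Proof. As in `MP_4d246d_lc.AllDeterministicRules` an adversary answers the rule; its walk consists of nested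
epochs, and an epoch of level `k + 1` consists of two epochs of level `k` and a wiping phase. A recorded
vertex has *useless* directions, which do not help to wipe it. There the number of useless directions of
every record was bounded by `K ≈ k ^ 3`, and this bound must be a bit larger at every level, by the factor
`1 + 1/k`. Here only the total weight `∑ 2 ^ (u / s)` is bounded, where `u` is the number of useless
directions of the record and `s` about `√n`; the bound grows by a factor `poly(k)` at each level. By
Jensen's inequality there are few directions which are useless for most of a large set of records, and they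
are fewer if the set is larger: at the scale of `2 ^ lam` records the new records of the wiping phase have
weight at most `2 ^ (1 - lam / 2) Θ`, so they do not matter. The wiping takes `O(θ log θ)` steps,
`θ = O(k log k)`, and `O(k ^ 2 log ^ 3 k)` directions are enough for `k` levels.
-/

namespace Pool.Agent.Results.MP_4d246d_lc.SquareRootExponent

open Finset Pool.Agent.TH70.AR Pool.Agent.R617.SR

/-- **Every deterministic pivot rule needs `2 ^ (n ^ (1/2 - o(1)))` steps on abstract objective functions on
the `n`-cube.** Let `k ≥ 1` and `12000 k ^ 2 (⌊log₂ k⌋ + 1) ^ 3 ≤ n`. A rule sees the list of triples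
(visited vertex, its objective value, its set of improving directions), the current one first, and names an
improving direction. For every rule and every start vertex `x₀` there is an injective objective function `f`
with exactly one local maximum on every face (and increasing paths of at most `n` steps lead from every
vertex to the maximum) such that the rule, started at `x₀`, reaches the maximum after `L ≥ 2 ^ k` steps. -/
theorem result (n k : ℕ) (hk : 1 ≤ k) (hn : 12000 * k ^ 2 * (Nat.log 2 k + 1) ^ 3 ≤ n)
    (rule : List ((Fin n → Bool) × ℕ × Finset (Fin n)) → Fin n)
    (hrule : ∀ (x : Fin n → Bool) (c : ℕ) (S : Finset (Fin n))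
      (l : List ((Fin n → Bool) × ℕ × Finset (Fin n))), S.Nonempty → rule ((x, c, S) :: l) ∈ S)
    (x₀ : Fin n → Bool) :
    ∃ (f : (Fin n → Bool) → ℕ) (L : ℕ) (w : ℕ → (Fin n → Bool)),
      Function.Injective f ∧
      (∀ (U : Finset (Fin n)) (x : Fin n → Bool), ∃! y : Fin n → Bool,
        (∀ i, i ∉ U → y i = x i) ∧ ∀ i ∈ U, f (Pool.Agent.TH70.AR.flip y i) < f y) ∧
      (∀ x : Fin n → Bool, ∃ (m : ℕ) (v : ℕ → (Fin n → Bool)), m ≤ n ∧ v 0 = x ∧
        (∀ t < m, ∃ i ∈ improving f (v t), v (t + 1) = flip (v t) i) ∧
        improving f (v m) = ∅) ∧
      w 0 = x₀ ∧
      (∀ t < L, (improving f (w t)).Nonempty ∧ w (t + 1) = flip (w t) (rule (seen f w t))) ∧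
      improving f (w L) = ∅ ∧ 2 ^ k ≤ L := by
  obtain ⟨f, h1, h2, L, w, h3, h4, h5, h6⟩ := slow_sqrt hk hn rule hrule x₀
  exact ⟨f, L, w, h1, h2, short_path h2, h3, h4, h5, h6⟩

end Pool.Agent.Results.MP_4d246d_lc.SquareRootExponent
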